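import Pool.Agent.Helper57.KE.St

/-!
# Project KE, module PT: the pointwise inequality
-/

set_option autoImplicit false

open scoped BigOperators
open Finset

namespace Pool.Agent.Helper41.KE

open Pool.Agent.Helper57.KE

private theorem bern (p x : ℝ) (_hp0 : 0 < p) (hp1 : p < 1) (_hx0 : 0 ≤ x) (hx1 : x < 1) :
    (1 - x) * (1 + (1 - p) * x) ≤ (1 - x) ^ p := by
  have h1 : 0 < 1 - x := by linarith
  have h2 : Real.log (1 - x) ≤ -x := by
    have := Real.log_le_sub_one_of_pos h1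
    linarith
  have h3 : 1 + (1 - p) * x ≤ Real.exp (-(1 - p) * Real.log (1 - x)) := by
    have h4 := Real.add_one_le_exp (-(1 - p) * Real.log (1 - x))
    nlinarith [mul_le_mul_of_nonneg_left h2 (by linarith : 0 ≤ 1 - p)]
  calc (1 - x) * (1 + (1 - p) * x) ≤ (1 - x) * Real.exp (-(1 - p) * Real.log (1 - x)) :=
        mul_le_mul_of_nonneg_left h3 h1.le
    _ = (1 - x) ^ p := by
        rw [Real.rpow_def_of_pos h1]
        nth_rewrite 1 [← Real.exp_log h1]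
        rw [← Real.exp_add]
        congr 1
        ring

private theorem expb (σ : ℝ) (h0 : 0 ≤ σ) (h1 : σ ≤ 1) : Real.exp σ ≤ 1 + σ + σ ^ 2 := by
  have h := Real.abs_exp_sub_one_sub_id_le (x := σ) (by rw [abs_of_nonneg h0]; exact h1)
  have := (abs_le.1 h).2
  linarith

/-- the algebra -/
private theorem alg (s σ x q : ℝ) (hs0 : 0 < s) (hs1 : s < 1) (hσ0 : 0 < σ) (hx0 : 0 < x)
    (hx1 : x ≤ 1) (hq1 : -(σ / s) ≤ q)
    (hq2 : q ≤ (1 - s) / (1 + s) * x - σ + ((1 - (1 - s) / (1 + s)) * x ^ 2 +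
      σ * ((1 - s) / (1 + s) * x + (1 - (1 - s) / (1 + s)) * x ^ 2))) :
    2 * s / (1 - s) * (σ ^ 2 + 2 * (σ / s) * q + q ^ 2) ≤
      x ^ 2 * ((1 - s) / (1 + s) * (1 - (1 - s) / (1 + s)) +
          4 * ((1 - s) / (1 + s)) * (σ / x) - 4 * (σ / x) ^ 2 +
          6 * s / (1 - s) * (1 + σ / x) * (σ / s + x)) := by
  obtain ⟨p, hp⟩ : ∃ p : ℝ, p = (1 - s) / (1 + s) := ⟨_, rfl⟩
  have hp0 : 0 < p := by rw [hp]; apply div_pos <;> linarith
  have hp1 : p < 1 := by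
    rw [hp, div_lt_one (by linarith)]
    linarith
  obtain ⟨e, he⟩ : ∃ e : ℝ, e = (1 - p) * x ^ 2 + σ * (p * x + (1 - p) * x ^ 2) := ⟨_, rfl⟩
  obtain ⟨u, hu⟩ : ∃ u : ℝ, u = σ / s := ⟨_, rfl⟩
  have hus : σ = u * s := by rw [hu]; field_simp
  have hu0 : 0 < u := by rw [hu]; positivity
  rw [← hp, ← he] at hq2
  rw [← hu] at hq1
  rw [← hp, ← hu]
  have hpk : 2 * s / (1 - s) * p ^ 2 = p * (1 - p) := by
    rw [hp]
    have h1 : 1 - s ≠ 0 := by linarith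
    have h2 : 1 + s ≠ 0 := by linarith
    field_simp
    ring
  have hx2 : x ^ 2 ≤ x := by nlinarith
  have he0 : 0 ≤ e := by
    rw [he]
    have : 0 ≤ 1 - p := by linarith
    positivity
  have he1 : e ≤ x ^ 2 + σ * x := by
    rw [he]
    nlinarith [mul_nonneg hσ0.le (mul_nonneg (by linarith : 0 ≤ 1 - p) (by linarith : 0 ≤ x - x ^ 2)),
      mul_nonneg hp0.le (sq_nonneg x)]
  obtain ⟨d, hd⟩ : ∃ d : ℝ, d = p * x - σ + e := ⟨_, rfl⟩
  rw [← hd] at hq2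
  -- step 3
  have s3 : σ ^ 2 + 2 * u * q + q ^ 2 ≤ σ ^ 2 + 2 * u * d + d ^ 2 := by
    nlinarith [mul_nonneg (sub_nonneg.2 hq2) (by linarith : 0 ≤ 2 * u + q + d)]
  have hsu : σ ≤ u := by
    rw [hus]
    nlinarith
  -- step 5
  have hB0 : 0 ≤ 2 * u + 2 * (p * x - σ) + e := by nlinarith [mul_pos hp0 hx0]
  have hB1 : 2 * u + 2 * (p * x - σ) + e ≤ 3 * u + 3 * x := by
    nlinarith [mul_pos hp0 hx0, mul_nonneg (by linarith : 0 ≤ 1 - p) hx0.le,
      mul_nonneg hσ0.le (by linarith : 0 ≤ 1 - x)]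
  have s5 : 2 * u * e + 2 * (p * x - σ) * e + e ^ 2 ≤ (x ^ 2 + σ * x) * (3 * u + 3 * x) := by
    calc 2 * u * e + 2 * (p * x - σ) * e + e ^ 2 = e * (2 * u + 2 * (p * x - σ) + e) := by ring
      _ ≤ (x ^ 2 + σ * x) * (3 * u + 3 * x) :=
        mul_le_mul he1 hB1 hB0 (by positivity)
  have hc : 0 ≤ 2 * s / (1 - s) := div_nonneg (by linarith) (by linarith)
  have e1 : x ^ 2 * (p * (1 - p) + 4 * p * (σ / x) - 4 * (σ / x) ^ 2 +
      6 * s / (1 - s) * (1 + σ / x) * (u + x)) =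
      2 * s / (1 - s) * (p ^ 2 * x ^ 2 + 2 * p * x * (u - σ) - 2 * σ * (u - σ) +
        (x ^ 2 + σ * x) * (3 * u + 3 * x)) := by
    rw [← hpk, hus]
    have h1 : 1 - s ≠ 0 := by linarith
    field_simp
    ring
  rw [e1]
  refine mul_le_mul_of_nonneg_left ?_ hc
  refine s3.trans ?_
  have e2 : σ ^ 2 + 2 * u * d + d ^ 2 = p ^ 2 * x ^ 2 + 2 * p * x * (u - σ) - 2 * σ * (u - σ) +
      (2 * u * e + 2 * (p * x - σ) * e + e ^ 2) := by
    rw [hd]
    ring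
  rw [e2]
  linarith

theorem hPT : StPT := by
  intro s σ i hs0 hs1 hσ0 hσs hσ1
  obtain ⟨p, hp⟩ : ∃ p : ℝ, p = (1 - s) / (1 + s) := ⟨_, rfl⟩
  have hp0 : 0 < p := by rw [hp]; apply div_pos <;> linarith
  have hp1 : p < 1 := by
    rw [hp, div_lt_one (by linarith)]
    linarith
  obtain ⟨k, hk⟩ : ∃ k : ℝ, k = (i : ℝ) + 1 := ⟨_, rfl⟩
  have hk1 : 1 ≤ k := by
    rw [hk]
    have : (0 : ℝ) ≤ i := Nat.cast_nonneg i
    linarith
  have hk0 : 0 < k := by linarith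
  obtain ⟨g, hg⟩ : ∃ g : ℝ, g = k ^ p * Real.exp (-(σ * k)) := ⟨_, rfl⟩
  have hg0 : 0 < g := by rw [hg]; positivity
  have hgg : gg p σ i = g := by rw [hg, hk]; rfl
  have hex := expb σ hσ0.le (by linarith)
  -- the quotient
  obtain ⟨ρ, hρ, hρ0, hρ1, hρ2⟩ : ∃ ρ : ℝ, sh (gg p σ) i = g * ρ ∧ 0 ≤ ρ ∧ ρ ≤ Real.exp σ ∧
      (1 - p * k⁻¹ - (1 - p) * k⁻¹ ^ 2) * (1 + σ) ≤ ρ := by
    by_cases hi : i = 0
    · refine ⟨0, ?_, le_rfl, (Real.exp_pos _).le, ?_⟩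
      · rw [hi]
        simp [sh]
      · rw [hk, hi]
        norm_num
    · have hi1 : (1 : ℝ) ≤ i := by exact_mod_cast Nat.one_le_iff_ne_zero.2 hi
      have hik : (i : ℝ) = k - 1 := by rw [hk]; ring
      have hk2 : 2 ≤ k := by linarith
      have hx1 : k⁻¹ < 1 := inv_lt_one_of_one_lt₀ (by linarith)
      have hx0 : 0 < k⁻¹ := by positivity
      have hb := bern p k⁻¹ hp0 hp1 hx0.le hx1
      have h0 : 0 < 1 - k⁻¹ := by linarith
      refine ⟨(1 - k⁻¹) ^ p * Real.exp σ, ?_, by positivity, ?_, ?_⟩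
      · have e1 : sh (gg p σ) i = (k - 1) ^ p * Real.exp (-(σ * (k - 1))) := by
          have e0 : ((i - 1 : ℕ) : ℝ) + 1 = k - 1 := by
            rw [Nat.cast_sub (Nat.one_le_iff_ne_zero.2 hi)]
            push_cast
            linarith
          unfold sh gg
          rw [if_neg hi, e0]
        have e2 : (k - 1) ^ p = k ^ p * (1 - k⁻¹) ^ p := by
          rw [← Real.mul_rpow hk0.le h0.le]
          congr 1
          field_simp
        have e3 : Real.exp (-(σ * (k - 1))) = Real.exp (-(σ * k)) * Real.exp σ := by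
          rw [← Real.exp_add]
          congr 1
          ring
        rw [e1, e2, e3, hg]
        ring
      · have : (1 - k⁻¹) ^ p ≤ 1 := Real.rpow_le_one h0.le (by linarith) hp0.le
        nlinarith [Real.exp_pos σ]
      · have e4 : (1 - k⁻¹) * (1 + (1 - p) * k⁻¹) = 1 - p * k⁻¹ - (1 - p) * k⁻¹ ^ 2 := by ring
        rw [e4] at hb
        have h5 : 0 ≤ 1 - p * k⁻¹ - (1 - p) * k⁻¹ ^ 2 := by
          rw [← e4]
          have : 0 ≤ 1 - p := by linarith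
          positivity
        have h6 : 1 + σ ≤ Real.exp σ := by
          have := Real.add_one_le_exp σ
          linarith
        exact mul_le_mul hb h6 (by linarith) (h5.trans hb)
  have hq := alg s σ k⁻¹ (1 - ρ) hs0 hs1 hσ0 (by positivity) (inv_le_one_of_one_le₀ hk1) (by
    have h1 : σ + σ ^ 2 ≤ σ / s := by
      rw [le_div_iff₀ hs0]
      have h2 : σ * s ≤ 1 - s := (le_div_iff₀ hs0).1 hσ1
      nlinarith
    linarith) (by
    rw [← hp]
    nlinarith [hρ2])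
  rw [← hp] at hq ⊢
  rw [← hk, hgg, hρ]
  have e5 : k ^ (2 * p - 2) * Real.exp (-(2 * (σ * k))) = g ^ 2 * k⁻¹ ^ 2 := by
    rw [hg, mul_pow, ← Real.exp_nat_mul, Real.rpow_sub hk0, mul_comm 2 p, Real.rpow_mul hk0.le]
    have e6 : (k ^ p) ^ (2 : ℝ) = (k ^ p) ^ 2 := Real.rpow_two _
    have e7 : k ^ (2 : ℝ) = k ^ 2 := Real.rpow_two _
    have e8 : ((2 : ℕ) : ℝ) * -(σ * k) = -(2 * (σ * k)) := by push_cast; ring
    rw [e6, e7, e8, inv_pow]
    ring
  rw [e5]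
  have e9 : σ * k = σ / k⁻¹ := by rw [div_inv_eq_mul]
  have e10 : (1 : ℝ) / k = k⁻¹ := one_div k
  rw [e9, e10]
  have hm := mul_le_mul_of_nonneg_left hq (sq_nonneg g)
  calc 2 * s / (1 - s) * (σ ^ 2 * g ^ 2 + 2 * (σ / s) * g * (g - g * ρ) + (g - g * ρ) ^ 2) =
        g ^ 2 * (2 * s / (1 - s) * (σ ^ 2 + 2 * (σ / s) * (1 - ρ) + (1 - ρ) ^ 2)) := by ring
    _ ≤ _ := hm
    _ = _ := by ring

end Pool.Agent.Helper41.KE
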