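import Pool.Agent.Helper57.KE.St2

/-!
# Project KF, module VPC: properties of the corrected weights
-/

set_option autoImplicit false

open scoped BigOperators
open Finset

namespace Pool.Agent.Helper41.KE

open Pool.Agent.Helper57.KE Pool.Agent.Helper57.KR Pool.Agent.Helper65.RG

private theorem gen_pos {f : ℕ → ℝ} {M : ℕ} (hf : ∀ l, l < M → 1 ≤ f l) (n : ℕ) (hn : n ≤ M) :
    0 < ∏ l ∈ range n, f l :=
  prod_pos fun l hl => lt_of_lt_of_le one_pos (hf l (lt_of_lt_of_le (mem_range.1 hl) hn))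

private theorem gen_mono {f : ℕ → ℝ} {M : ℕ} (hf : ∀ l, l < M → 1 ≤ f l) {n m : ℕ} (h : n ≤ m)
    (hm : m ≤ M) : ∏ l ∈ range n, f l ≤ ∏ l ∈ range m, f l := by
  induction m, h using Nat.le_induction with
  | base => exact le_rfl
  | succ k hk ih =>
    rw [prod_range_succ]
    exact (ih (by omega)).trans
      (le_mul_of_one_le_right (gen_pos hf k (by omega)).le (hf k (by omega)))

private theorem gen_ratio {f g : ℕ → ℝ} {M : ℕ} (hf : ∀ l, l < M → 1 ≤ f l)
    (hfg : ∀ l, l < M → f l ≤ g l) {n m : ℕ} (h : n ≤ m) (hm : m ≤ M) :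
    (∏ l ∈ range m, f l) * (∏ l ∈ range n, g l) ≤ (∏ l ∈ range m, g l) * (∏ l ∈ range n, f l) := by
  have hg : ∀ l, l < M → 1 ≤ g l := fun l hl => (hf l hl).trans (hfg l hl)
  induction m, h using Nat.le_induction with
  | base => rw [mul_comm]
  | succ k hk ih =>
    rw [prod_range_succ, prod_range_succ]
    have h1 := ih (by omega)
    have h2 := hfg k (by omega)
    have h3 := hf k (by omega)
    have p1 := gen_pos hf k (by omega)
    have p2 := gen_pos hg k (by omega)
    have p3 := gen_pos hf n (by omega)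
    have p4 := gen_pos hg n (by omega)
    calc (∏ l ∈ range k, f l) * f k * (∏ l ∈ range n, g l)
        = ((∏ l ∈ range k, f l) * (∏ l ∈ range n, g l)) * f k := by ring
      _ ≤ ((∏ l ∈ range k, g l) * (∏ l ∈ range n, f l)) * g k :=
          mul_le_mul h1 h2 (by linarith) (by positivity)
      _ = (∏ l ∈ range k, g l) * g k * (∏ l ∈ range n, f l) := by ring

/-- VPC. -/
theorem hVPC : StVPC := by
  intro hV p e i0 M hp0 hp1 hi he heM
  have hi0 : (0 : ℝ) < i0 := by exact_mod_cast hi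
  have hi1 : (1 : ℝ) ≤ i0 := by exact_mod_cast hi
  have hM0 : (0 : ℝ) ≤ M := Nat.cast_nonneg M
  have e2a : 2 * ((1 - p) / 2) = 1 - p := by ring
  have e1a : 1 - 2 * ((1 - p) / 2) = p := by ring
  obtain ⟨v1, v2, v3, v4, v5, v6, v7, v8⟩ := hV ((1 - p) / 2) i0 M (by linarith) (by linarith) hi
  rw [e1a] at v7 v8
  rw [e2a] at v5
  have hf : ∀ l, l < M → 1 ≤ 1 + (1 - p) / ((l : ℝ) + i0) - e := by
    intro l hl
    have h1 : (l : ℝ) ≤ M := by exact_mod_cast hl.le
    have h0 : (0 : ℝ) ≤ l := Nat.cast_nonneg l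
    have h2 : e ≤ (1 - p) / ((l : ℝ) + i0) := by
      rw [le_div_iff₀ (by linarith)]
      exact (mul_le_mul_of_nonneg_left (by linarith) he).trans heM
    linarith
  have hfg : ∀ l, l < M → 1 + (1 - p) / ((l : ℝ) + i0) - e ≤ 1 + 2 * ((1 - p) / 2) / ((l : ℝ) + i0) := by
    intro l _
    rw [e2a]
    linarith
  have hg : ∀ l, l < M → 1 ≤ 1 + 2 * ((1 - p) / 2) / ((l : ℝ) + i0) :=
    fun l hl => (hf l hl).trans (hfg l hl)
  have hwpos : ∀ j, 0 < vw p e i0 M j := fun j => gen_pos hf _ (min_le_right _ _)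
  have hvpos : ∀ j, 0 < vv ((1 - p) / 2) i0 M j := fun j => gen_pos hg _ (min_le_right _ _)
  have hpos : ∀ j, 0 < pw p e i0 M j := fun j => Real.sqrt_pos.2 (hwpos j)
  have hmono : ∀ i j, i ≤ j → pw p e i0 M i ≤ pw p e i0 M j := by
    intro i j hij
    exact Real.sqrt_le_sqrt (gen_mono hf (by omega) (min_le_right _ _))
  have hrat : ∀ i j, j ≤ i → pw p e i0 M i / pw p e i0 M j ≤
      ph ((1 - p) / 2) i0 M i / ph ((1 - p) / 2) i0 M j := by
    intro i j hij
    unfold pw ph
    rw [← Real.sqrt_div (hwpos i).le, ← Real.sqrt_div (hvpos i).le]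
    refine Real.sqrt_le_sqrt ?_
    rw [div_le_div_iff₀ (hwpos j) (hvpos j)]
    exact gen_ratio hf hfg (by omega) (min_le_right _ _)
  have hr0 : ∀ i j, 0 ≤ pw p e i0 M i / pw p e i0 M j := fun i j => (div_pos (hpos i) (hpos j)).le
  refine ⟨hpos, ?_, hmono, ?_, ?_, ?_, ?_, ?_⟩
  · unfold pw vw
    rw [Nat.zero_min, range_zero, prod_empty, Real.sqrt_one]
  · intro i hMi
    unfold pw vw
    rw [min_eq_right hMi, min_self]
  · have s1 : pw p e i0 M M ^ 2 = ∏ l ∈ range M, (1 + (1 - p) / ((l : ℝ) + i0) - e) := by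
      unfold pw
      rw [Real.sq_sqrt (hwpos M).le]
      unfold vw
      rw [min_self]
    have s2 : ph ((1 - p) / 2) i0 M M ^ 2 =
        ∏ l ∈ range M, (1 + 2 * ((1 - p) / 2) / ((l : ℝ) + i0)) := by
      unfold ph
      rw [Real.sq_sqrt (hvpos M).le]
      unfold vv
      rw [min_self]
    have hMe : (M : ℝ) * e ≤ 1 - p := by nlinarith
    have he1 : e ≤ 1 - p := by nlinarith
    have hb : p ≤ (1 - e) ^ M := by
      have h1 := one_add_mul_le_pow (a := -e) (by linarith) M
      have h2 : 1 + (M : ℝ) * -e = 1 - M * e := by ring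
      have h3 : (1 + -e) = 1 - e := by ring
      rw [h2, h3] at h1
      linarith
    have hprod : (1 - e) ^ M * ∏ l ∈ range M, (1 + 2 * ((1 - p) / 2) / ((l : ℝ) + i0)) ≤
        ∏ l ∈ range M, (1 + (1 - p) / ((l : ℝ) + i0) - e) := by
      have h1 : (1 - e) ^ M = ∏ _l ∈ range M, (1 - e) := by rw [prod_const, card_range]
      rw [h1, ← prod_mul_distrib]
      refine prod_le_prod (fun l hl => ?_) (fun l hl => ?_)
      · have := hg l (mem_range.1 hl)
        exact mul_nonneg (by linarith) (by linarith)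
      · have h2 := hg l (mem_range.1 hl)
        rw [e2a] at h2 ⊢
        nlinarith
    rw [s1]
    rw [s2] at v5
    calc p * (((M : ℝ) + i0) / i0) ^ (1 - p)
        ≤ (1 - e) ^ M * ∏ l ∈ range M, (1 + 2 * ((1 - p) / 2) / ((l : ℝ) + i0)) :=
          mul_le_mul hb v5 (by positivity) (by linarith)
      _ ≤ _ := hprod
  · intro i j hij
    exact (pow_le_pow_left₀ (hr0 i j) (hrat i j hij) 2).trans (v6 i j hij)
  · refine le_trans ?_ v7
    rw [mul_sum, mul_sum]
    refine sum_le_sum fun j hj => ?_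
    have h1 := pow_le_pow_left₀ (hr0 M j) (hrat M j (mem_range.1 hj).le) 2
    rw [div_pow, div_pow, div_eq_mul_inv, div_eq_mul_inv] at h1
    exact h1
  · refine le_trans ?_ v8
    refine sum_le_sum fun j hj => ?_
    have h1 := hrat M j (mem_range.1 hj).le
    have h2 : 1 ≤ pw p e i0 M M / pw p e i0 M j := by
      rw [one_le_div (hpos j)]
      exact hmono _ _ (mem_range.1 hj).le
    exact pow_le_pow_left₀ (by linarith) (by linarith) 2

end Pool.Agent.Helper41.KE
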